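import Pool.Agent.Strip051.ProbeMain

/-! # The coupling of the left and of the right exit -/

namespace Pool.Agent.Strip051

open Pool.Agent.StripNear Pool.Agent.StripSquare

/-- A disc through an exit in polar coordinates. -/
theorem polar {t a w : ℝ} (ht0 : 0 ≤ t) (ht1 : t ≤ 1) (ha : 0 ≤ a) (hw : 0 ≤ w)
    (he : (a + g t) ^ 2 + (t - w) ^ 2 = 1) (h1 : 1 ≤ a ^ 2 + w ^ 2) :
    ∃ μ, 0 ≤ μ ∧ μ ≤ Real.pi / 3 ∧ -a = 2 * Real.cos μ * Real.cos (Real.arcsin t + μ) ∧
      w = 2 * Real.cos μ * Real.sin (Real.arcsin t + μ) := by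
  have hg := g_nonneg t
  have hq := g_sq (r := t) (by linear_combination ht1 + (mul_nonneg (sub_nonneg.mpr ht0) (sub_nonneg.mpr ht1)))
  have hsin : Real.sin (Real.arcsin t) = t := Real.sin_arcsin (by linear_combination ht0) ht1
  have hcos : Real.cos (Real.arcsin t) = g t := Real.cos_arcsin t
  set G := g t with hG
  set ρ := √(a ^ 2 + w ^ 2) with hρ
  have hρ2 : ρ ^ 2 = a ^ 2 + w ^ 2 := Real.sq_sqrt (by positivity)
  have hρ1 : 1 ≤ ρ := by
    rw [hρ]
    exact Real.one_le_sqrt.2 h1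
  have e1 : ρ ^ 2 = 2 * (t * w - a * G) := by linear_combination he - hq + hρ2
  have hwρ : w ≤ ρ := by
    apply abs_le_of_sq_le_sq' _ (by linear_combination hρ1) |>.2
    linear_combination (sq_nonneg (a)) - hρ2
  have hρ3 : ρ ≤ 2 := by
    have : ρ ^ 2 ≤ 2 * ρ := by
      rw [e1]
      linear_combination 2 * (mul_nonneg ha hg) + 2 * hwρ + 2 * (mul_nonneg (sub_nonneg.mpr ht1) (sub_nonneg.mpr hw))
    exact not_lt.mp (fun hg__ => absurd hg__ (not_lt.mpr (by linear_combination (1 / 2) * this + (1 / 2) * (mul_pos (sub_pos.mpr hg__) (sub_pos.mpr hg__)))))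
  have hc : Real.cos (Real.arccos (ρ / 2)) = ρ / 2 :=
    Real.cos_arccos (by linear_combination (1 / 2) * hρ1) (by linear_combination (1 / 2) * hρ3)
  have hs : Real.sin (Real.arccos (ρ / 2)) = √(1 - (ρ / 2) ^ 2) := Real.sin_arccos _
  have hs0 : 0 ≤ √(1 - (ρ / 2) ^ 2) := Real.sqrt_nonneg _
  have hs2 : √(1 - (ρ / 2) ^ 2) ^ 2 = 1 - (ρ / 2) ^ 2 := Real.sq_sqrt (by linear_combination ht1 + (1 / 4) * he - (1 / 4) * hq + (1 / 4) * hρ2 + (1 / 2) * (mul_nonneg (sub_nonneg.mpr ht0) (sub_nonneg.mpr hwρ)) +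
    (1 / 2) * (mul_nonneg (sub_nonneg.mpr ht0) (sub_nonneg.mpr hρ3)) + (1 / 2) * (mul_nonneg (sub_nonneg.mpr ha) (sub_nonneg.mpr hg)))
  have e2 : G * w + t * a = ρ * √(1 - (ρ / 2) ^ 2) := by
    have h3 : (G * w + t * a) ^ 2 = (ρ * √(1 - (ρ / 2) ^ 2)) ^ 2 := by
      have h4 : (G * w + t * a) ^ 2 + (t * w - a * G) ^ 2 = (t ^ 2 + G ^ 2) * (a ^ 2 + w ^ 2) := by
        ring
      rw [show t ^ 2 + G ^ 2 = 1 by linear_combination hq, ← hρ2, one_mul] at h4
      have h5 : t * w - a * G = ρ ^ 2 / 2 := by linear_combination -(1 / 2) * he + (1 / 2) * hq - (1 / 2) * hρ2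
      rw [h5] at h4
      rw [mul_pow, hs2]
      linear_combination h4
    have h6 : 0 ≤ G * w + t * a := by positivity
    have h7 : 0 ≤ ρ * √(1 - (ρ / 2) ^ 2) := by positivity
    exact (sq_eq_sq₀ h6 h7).1 h3
  have e3 : t * w - a * G = ρ * (ρ / 2) := by linear_combination -(1 / 2) * he + (1 / 2) * hq - (1 / 2) * hρ2
  refine ⟨Real.arccos (ρ / 2), Real.arccos_nonneg _, ?_, ?_, ?_⟩
  · have h3 : Real.arccos (ρ / 2) ≤ Real.arccos (1 / 2) := Real.arccos_le_arccos (by linear_combination (1 / 2) * hρ1)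
    rwa [← Real.cos_pi_div_three, Real.arccos_cos (by positivity) (by linear_combination (2 / 3) * Real.pi_pos)]
      at h3
  · rw [Real.cos_add, hsin, hcos, hc, hs]
    have : 2 * (ρ / 2) * (G * (ρ / 2) - t * √(1 - (ρ / 2) ^ 2)) =
      G * (ρ * (ρ / 2)) - t * (ρ * √(1 - (ρ / 2) ^ 2)) := by ring
    rw [this, ← e2, ← e3]
    have : G * (t * w - a * G) - t * (G * w + t * a) = -a * (t ^ 2 + G ^ 2) := by ring
    rw [this, show t ^ 2 + G ^ 2 = 1 by linear_combination hq]
    ring
  · rw [Real.sin_add, hsin, hcos, hc, hs]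
    have : 2 * (ρ / 2) * (t * (ρ / 2) + G * √(1 - (ρ / 2) ^ 2)) =
      t * (ρ * (ρ / 2)) + G * (ρ * √(1 - (ρ / 2) ^ 2)) := by ring
    rw [this, ← e2, ← e3]
    have : t * (t * w - a * G) + G * (G * w + t * a) = w * (t ^ 2 + G ^ 2) := by ring
    rw [this, show t ^ 2 + G ^ 2 = 1 by linear_combination hq]
    ring

/-- The discs of the left and of the right exit keep apart only if the exits do. -/
theorem couple_disc {t t' a a' w w' : ℝ} (ht0 : 1 / 2 ≤ t) (ht1 : t ≤ 1) (ht0' : 1 / 2 ≤ t')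
    (ht1' : t' ≤ 1) (ha : 0 ≤ a) (ha' : 0 ≤ a') (hw : 0 ≤ w) (hw' : 0 ≤ w')
    (he : (a + g t) ^ 2 + (t - w) ^ 2 = 1) (he' : (a' + g t') ^ 2 + (t' - w') ^ 2 = 1)
    (h1 : 1 ≤ a ^ 2 + w ^ 2) (h1' : 1 ≤ a' ^ 2 + w' ^ 2)
    (hs : 1 ≤ (a + a') ^ 2 + (w - w') ^ 2) : t' / 2 + h0 * g t' ≤ t := by
  obtain ⟨μ, m0, m1, m2, m3⟩ := polar (by linear_combination ht0) ht1 ha hw he h1
  obtain ⟨μ', m0', m1', m2', m3'⟩ := polar (by linear_combination ht0') ht1' ha' hw' he' h1'
  have hpi := Real.pi_pos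
  have hsin : Real.sin (Real.arcsin t) = t := Real.sin_arcsin (by linear_combination ht0) ht1
  have hsin' : Real.sin (Real.arcsin t') = t' := Real.sin_arcsin (by linear_combination ht0') ht1'
  have hcos' : Real.cos (Real.arcsin t') = g t' := Real.cos_arcsin t'
  have b1 : Real.arcsin t ≤ Real.pi / 2 := Real.arcsin_le_pi_div_two t
  have b1' : Real.arcsin t' ≤ Real.pi / 2 := Real.arcsin_le_pi_div_two t'
  have b2 : Real.pi / 6 ≤ Real.arcsin t := by
    rw [Real.le_arcsin_iff_sin_le' (by constructor <;> linarith), Real.sin_pi_div_six]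
    exact ht0
  have b2' : Real.pi / 6 ≤ Real.arcsin t' := by
    rw [Real.le_arcsin_iff_sin_le' (by constructor <;> linarith), Real.sin_pi_div_six]
    exact ht0'
  set η := Real.arcsin t with hη
  set η' := Real.arcsin t' with hη'
  have key : 2 * Real.pi / 3 ≤ η + η' := by
    by_contra hcon
    push Not at hcon
    have c0 : 0 < Real.cos μ := by
      apply Real.cos_pos_of_mem_Ioo
      constructor <;> linarith
    have c0' : 0 < Real.cos μ' := by
      apply Real.cos_pos_of_mem_Ioo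
      constructor <;> linarith
    have d1 : Real.pi / 2 ≤ η + μ := by
      by_contra h
      have : 0 < Real.cos (η + μ) := by
        apply Real.cos_pos_of_mem_Ioo
        constructor <;> linarith
      have := mul_pos (mul_pos two_pos c0) this
      exact absurd ha (not_le.mpr (by linear_combination -m2 + this))
    have d1' : Real.pi / 2 ≤ η' + μ' := by
      by_contra h
      have : 0 < Real.cos (η' + μ') := by
        apply Real.cos_pos_of_mem_Ioo
        constructor <;> linarith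
      have := mul_pos (mul_pos two_pos c0') this
      exact absurd ha' (not_le.mpr (by linear_combination -m2' + this))
    -- the distance in terms of the angles
    have e1 : (a + a') ^ 2 + (w - w') ^ 2 = 4 * Real.cos μ ^ 2 + 4 * Real.cos μ' ^ 2 +
        8 * Real.cos μ * Real.cos μ' * Real.cos ((η + μ) + (η' + μ')) := by
      rw [Real.cos_add (η + μ) (η' + μ')]
      have f1 : a = -(2 * Real.cos μ * Real.cos (η + μ)) := by linear_combination -m2
      have f1' : a' = -(2 * Real.cos μ' * Real.cos (η' + μ')) := by linear_combination -m2'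
      rw [f1, f1', m3, m3']
      have g1 := Real.sin_sq_add_cos_sq (η + μ)
      have g1' := Real.sin_sq_add_cos_sq (η' + μ')
      linear_combination 4 * Real.cos μ ^ 2 * g1 + 4 * Real.cos μ' ^ 2 * g1'
    have e2 : Real.cos ((η + μ) + (η' + μ')) < -Real.cos (μ + μ' - Real.pi / 3) := by
      have h2 : Real.cos ((η + μ) + (η' + μ')) = -Real.cos ((η + μ) + (η' + μ') - Real.pi) := by
        rw [Real.cos_sub_pi, neg_neg]
      rw [h2]
      have := Real.strictAntiOn_cos (a := (η + μ) + (η' + μ') - Real.pi)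
        (b := μ + μ' - Real.pi / 3) (by constructor <;> linarith) (by constructor <;> linarith)
        (by linear_combination hcon)
      linear_combination this
    have e3 : 4 * Real.cos μ ^ 2 + 4 * Real.cos μ' ^ 2 -
        8 * Real.cos μ * Real.cos μ' * Real.cos (μ + μ' - Real.pi / 3) =
        1 - 8 * Real.sin (μ + μ' - Real.pi / 6) * Real.sin (Real.pi / 3 - μ) *
          Real.sin (Real.pi / 3 - μ') := by
      have s3 : √3 ^ 2 = 3 := Real.sq_sqrt (by norm_num)
      rw [Real.cos_sub, Real.sin_sub, Real.sin_sub, Real.sin_sub, Real.cos_add, Real.sin_add,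
        Real.cos_pi_div_three, Real.sin_pi_div_three, Real.cos_pi_div_six, Real.sin_pi_div_six]
      have g1 := Real.sin_sq_add_cos_sq μ
      have g1' := Real.sin_sq_add_cos_sq μ'
      linear_combination (1 - 4 * Real.cos μ' ^ 2) * g1 +
        (Real.sin μ ^ 2 - 3 * Real.cos μ ^ 2) * g1' +
        (Real.cos μ * Real.cos μ' * (√3 * (Real.sin μ * Real.cos μ' + Real.cos μ * Real.sin μ') -
          (Real.cos μ * Real.cos μ' - Real.sin μ * Real.sin μ')) -
          (Real.sin μ * Real.cos μ' + Real.cos μ * Real.sin μ') ^ 2) * s3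
    have e4 : 0 ≤ Real.sin (μ + μ' - Real.pi / 6) :=
      Real.sin_nonneg_of_nonneg_of_le_pi (by linear_combination (1 / 2) * m0' + (1 / 2) * b2' + hcon + d1 + (1 / 2) * d1') (by linear_combination (3 / 2) * m0 + (5 / 2) * m1 + m1')
    have e5 : 0 ≤ Real.sin (Real.pi / 3 - μ) :=
      Real.sin_nonneg_of_nonneg_of_le_pi (by linear_combination m1) (by linear_combination 3 * m0 + 2 * m1)
    have e6 : 0 ≤ Real.sin (Real.pi / 3 - μ') :=
      Real.sin_nonneg_of_nonneg_of_le_pi (by linear_combination m1') (by linear_combination 2 * m0 + 2 * m1 + m0')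
    have e7 := mul_nonneg (mul_nonneg e4 e5) e6
    have e8 := mul_pos c0 c0'
    exact absurd e7 (not_le.mpr (by linear_combination (1 / 8) * hs + (1 / 8) * e1 + (1 / 8) * e3 + (mul_pos (sub_pos.mpr e2) (sub_pos.mpr e8))))
  have h2 : Real.sin (2 * Real.pi / 3 - η') ≤ Real.sin η :=
    Real.sin_le_sin_of_le_of_le_pi_div_two (by linear_combination (2 / 3) * hpi + b1') b1 (by linear_combination key)
  have h3 : Real.sin (2 * Real.pi / 3) = h0 := by
    rw [show 2 * Real.pi / 3 = Real.pi - Real.pi / 3 by ring, Real.sin_pi_sub,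
      Real.sin_pi_div_three]
    rfl
  have h4 : Real.cos (2 * Real.pi / 3) = -(1 / 2) := by
    rw [show 2 * Real.pi / 3 = Real.pi - Real.pi / 3 by ring, Real.cos_pi_sub,
      Real.cos_pi_div_three]
  rw [Real.sin_sub, h3, h4, hsin, hsin', hcos'] at h2
  linear_combination h2

end Pool.Agent.Strip051
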