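import Pool.Agent.Strip051.Two.Side

/-! # The double sweep with floor coupling for a sum of probes -/

namespace Pool.Agent.Strip051

open Pool.Agent.StripNear Pool.Agent.StripSquare
open Pool.Agent.StripTwo (molnar)

/-- The gain of the potential at an insertion at the height `y` before the comparison front `γ`. -/
noncomputable def pg {ι : Type} [Fintype ι] (c : ι → ℝ) (j : ι → Probe) (y : ℝ) (γ : ℝ → ℝ) : ℝ :=
  ∑ i, c i * ((j i).val (fun z => max (γ (z - y)) (g (z - y))) - (j i).val (fun z => γ (z - y)))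

/-- A symmetric sum of probes whose gains on the two sides of every point have the sum two. -/
structure ProbeCert2 (H : ℝ) {ι : Type} [Fintype ι] (c : ι → ℝ) (j : ι → Probe)
    (w : ℝ → ℝ → ℝ) : Prop where
  H0 : h0 + 1 / 2 ≤ H
  wok : WOk w
  pos : ∀ i, 0 ≤ c i
  ok : ∀ i, (j i).Ok H
  sym : ∀ f : ℝ → ℝ, pot c j (fun z => f (H - z)) = pot c j f
  gain : ∀ y r q γ r' q' γ', 0 ≤ y → y ≤ H / 2 → Sd H w y r q γ → Sd H w y r' q' γ' →
    r' ≤ ext r → r ≤ ext r' → q' ≤ ext q → q ≤ ext q' → 2 ≤ pg c j y γ + pg c j y γ'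

theorem gain_of_cmp {H : ℝ} {ι : Type} [Fintype ι] {c : ι → ℝ} {j : ι → Probe}
    (hpos : ∀ i, 0 ≤ c i) (hok : ∀ i, (j i).Ok H) {S : Finset Pt} {P : Pt} {γ : ℝ → ℝ}
    (hx : ∀ q ∈ S, q.1 ≤ P.1) (hγ : ∀ v, 0 ≤ γ v)
    (hc : ∀ z, 0 ≤ z → z ≤ H → CmpG (fr S P.1) P γ z) :
    pg c j P.2 γ ≤ gainAt (pot c j) S P := by
  have hF := fr_spec hx
  have h4 : ∀ i, (j i).val (fun z => max (γ (z - P.2)) (g (z - P.2))) -
      (j i).val (fun z => γ (z - P.2)) ≤
      (j i).val (fun z => max (fr S P.1 z) (arc P z)) - (j i).val (fr S P.1) := by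
    intro i
    have k1 := Probe.gain (hok i) (f := fr S P.1) (γ := fun z => P.1 + γ (z - P.2))
      (p := arc P) (m := P.1) hF.line (fun z => by linear_combination (hγ (z - P.2))) hc
    have k2 := Probe.shift (hok i) (f := fun z => γ (z - P.2)) (m := 0) (x := P.1)
      (fun z => hγ (z - P.2))
    have k3 := Probe.shift (hok i) (f := fun z => max (γ (z - P.2)) (g (z - P.2)))
      (m := 0) (x := P.1) (fun z => (hγ (z - P.2)).trans (le_max_left _ _))
    have k4 : (fun z => max (P.1 + γ (z - P.2)) (arc P z)) =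
        fun z => max (γ (z - P.2)) (g (z - P.2)) + P.1 := by
      funext z
      unfold arc
      rw [max_add_add_left, add_comm]
    have k5 : (fun z => P.1 + γ (z - P.2)) = fun z => γ (z - P.2) + P.1 := by
      funext z
      ring
    rw [k4, k5, k2, k3] at k1
    linear_combination k1
  have h5 : pg c j P.2 γ ≤
      ∑ i, c i * ((j i).val (fun z => max (fr S P.1 z) (arc P z)) - (j i).val (fr S P.1)) :=
    Finset.sum_le_sum fun i _ => mul_le_mul_of_nonneg_left (h4 i) (hpos i)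
  have h6 : ∑ i, c i * ((j i).val (fun z => max (fr S P.1 z) (arc P z)) -
      (j i).val (fr S P.1)) = gainAt (pot c j) S P := by
    unfold gainAt pot
    rw [← Finset.sum_sub_distrib]
    exact Finset.sum_congr rfl fun i _ => by ring
  linear_combination h5 + h6

theorem mir_inj (H : ℝ) : Function.Injective (mir H) := fun p q h => by
  rw [← mir_mir H p, h, mir_mir]

theorem fr_mirror (H : ℝ) (S : Finset Pt) (m : ℝ) [DecidableEq Pt] :
    fr (S.image (mir H)) m = fun z => fr S m (H - z) := by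
  funext z
  unfold fr
  rw [Finset.fold_image fun p _ q _ h => mir_inj H h]
  congr 1
  funext q
  exact arc_mir H q z

theorem gainAt_mirror {H : ℝ} {ι : Type} [Fintype ι] {c : ι → ℝ} {j : ι → Probe}
    (hsym : ∀ f : ℝ → ℝ, pot c j (fun z => f (H - z)) = pot c j f) (S : Finset Pt) (P : Pt)
    [DecidableEq Pt] :
    gainAt (pot c j) (S.image (mir H)) (mir H P) = gainAt (pot c j) S P := by
  unfold gainAt
  rw [fr_mirror, mir_fst]
  have h1 : (fun z => max ((fun z => fr S P.1 (H - z)) z) (arc (mir H P) z)) =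
      fun z => (fun t => max (fr S P.1 t) (arc P t)) (H - z) := by
    funext z
    simp only
    rw [arc_mir]
  rw [h1, hsym (fun t => max (fr S P.1 t) (arc P t)), hsym (fr S P.1)]

theorem mir_sep {H : ℝ} {p q : Pt} (h : Sep p q) : Sep (mir H p) (mir H q) := by
  unfold Sep at *
  rw [mir_fst, mir_fst, mir_snd, mir_snd]
  have : (H - p.2 - (H - q.2)) ^ 2 = (p.2 - q.2) ^ 2 := by ring
  rwa [this]

theorem Lft.mirror {H : ℝ} {S : Finset Pt} {P : Pt} (h : Lft H S P) [DecidableEq Pt] :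
    Lft H (S.image (mir H)) (mir H P) := by
  refine ⟨?_, ?_, ?_, ?_, ?_⟩
  · intro q hq
    obtain ⟨p, hp, rfl⟩ := Finset.mem_image.1 hq
    exact h.x p hp
  · intro q hq
    obtain ⟨p, hp, rfl⟩ := Finset.mem_image.1 hq
    rw [mir_snd]
    linear_combination (h.hi p hp)
  · intro q hq
    obtain ⟨p, hp, rfl⟩ := Finset.mem_image.1 hq
    rw [mir_snd]
    linear_combination (h.lo p hp)
  · intro q hq
    obtain ⟨p, hp, rfl⟩ := Finset.mem_image.1 hq
    exact mir_sep (h.sep p hp)
  · intro q1 hq1 q2 hq2 hq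
    obtain ⟨p1, hp1, rfl⟩ := Finset.mem_image.1 hq1
    obtain ⟨p2, hp2, rfl⟩ := Finset.mem_image.1 hq2
    exact mir_sep (h.sep2 p1 hp1 p2 hp2 fun e => hq (by rw [e]))

/-- The pair inequality for the lower half of the strip. -/
theorem pair_low {H : ℝ} {ι : Type} [Fintype ι] {c : ι → ℝ} {j : ι → Probe} {w : ℝ → ℝ → ℝ}
    (h : ProbeCert2 H c j w) {S S' : Finset Pt} {P : Pt} (hP0 : 0 ≤ P.2) (hP1 : P.2 ≤ H)
    (hPh : P.2 ≤ H / 2) (hS : Lft H S P) (hS' : Lft H S' (mx P))
    (hSS : ∀ q ∈ S, ∀ q' ∈ S', Sep q (mx q')) :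
    2 ≤ gainAt (pot c j) S P + gainAt (pot c j) S' (mx P) := by
  obtain ⟨r, q, γ, z1, z2, k1, k2, k3, k4⟩ := side h.wok h.H0 (fr_spec hS.x)
    (fun p hp => ⟨hS.lo p hp, hS.hi p hp⟩) hS.sep hS.sep2 ⟨hP0, hP1⟩
  obtain ⟨r', q', γ', z1', z2', k1', k2', k3', k4'⟩ := side h.wok h.H0 (fr_spec hS'.x)
    (fun p hp => ⟨hS'.lo p hp, hS'.hi p hp⟩) hS'.sep hS'.sep2 ⟨hP0, hP1⟩
  have g1 := gain_of_cmp h.pos h.ok hS.x k1.nonneg k4
  have g2 := gain_of_cmp h.pos h.ok hS'.x k1'.nonneg k4'
  have hpair : ∀ q ∈ {p | p ∈ S}, ∀ q' ∈ {p | p ∈ S'},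
      1 ≤ ((P.1 - q.1) + ((mx P).1 - q'.1)) ^ 2 + (q.2 - q'.2) ^ 2 := by
    intro q hq q' hq'
    have := hSS q hq q' hq'
    unfold Sep at this
    rw [mx_fst, mx_snd] at this
    rw [mx_fst]
    linear_combination this
  have hpair' : ∀ q ∈ {p | p ∈ S'}, ∀ q' ∈ {p | p ∈ S},
      1 ≤ (((mx P).1 - q.1) + (P.1 - q'.1)) ^ 2 + (q.2 - q'.2) ^ 2 := by
    intro q hq q' hq'
    have := hpair q' hq' q hq
    linear_combination this
  have c1 := Ex.couple (P := P) (P' := mx P) rfl k2 k2' hS.x hS'.x hS.sep hS'.sep hS.hi hpair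
  have c2 := Ex.couple (P := mx P) (P' := P) rfl k2' k2 hS'.x hS.x hS'.sep hS.sep hS'.hi hpair'
  have c3 := Ex.couple (P := mir H P) (P' := mir H (mx P)) rfl k3 k3'
    (fun q hq => hS.x (mir H q) hq) (fun q hq => hS'.x (mir H q) hq)
    (fun q hq => by
      have := mir_sep (H := H) (hS.sep (mir H q) hq)
      rwa [mir_mir] at this)
    (fun q hq => by
      have := mir_sep (H := H) (hS'.sep (mir H q) hq)
      rwa [mir_mir] at this)
    (fun q hq => by
      have := hS.lo (mir H q) hq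
      rw [mir_snd] at this
      linear_combination this)
    (fun q hq q' hq' => by
      have := hpair (mir H q) hq (mir H q') hq'
      rw [mir_fst, mir_fst, mir_snd, mir_snd] at this
      rw [mir_fst, mir_fst]
      have e : (H - q.2 - (H - q'.2)) ^ 2 = (q.2 - q'.2) ^ 2 := by ring
      rwa [e] at this)
  have c4 := Ex.couple (P := mir H (mx P)) (P' := mir H P) rfl k3' k3
    (fun q hq => hS'.x (mir H q) hq) (fun q hq => hS.x (mir H q) hq)
    (fun q hq => by
      have := mir_sep (H := H) (hS'.sep (mir H q) hq)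
      rwa [mir_mir] at this)
    (fun q hq => by
      have := mir_sep (H := H) (hS.sep (mir H q) hq)
      rwa [mir_mir] at this)
    (fun q hq => by
      have := hS'.lo (mir H q) hq
      rw [mir_snd] at this
      linear_combination this)
    (fun q hq q' hq' => by
      have := hpair' (mir H q) hq (mir H q') hq'
      rw [mir_fst, mir_fst, mir_snd, mir_snd] at this
      rw [mir_fst, mir_fst]
      have e : (H - q.2 - (H - q'.2)) ^ 2 = (q.2 - q'.2) ^ 2 := by ring
      rwa [e] at this)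
  have := h.gain P.2 r q γ r' q' γ' hP0 hPh k1 k1' c1 c2 c3 c4
  rw [mx_snd] at g2
  linear_combination g1 + g2 + this

/-- The certificate gives a potential for the double sweep. -/
theorem ProbeCert2.swp {H : ℝ} {ι : Type} [Fintype ι] {c : ι → ℝ} {j : ι → Probe}
    {w : ℝ → ℝ → ℝ} (h : ProbeCert2 H c j w) : Swp H (∑ i, c i) (pot c j) := by
  classical
  refine ⟨?_, ?_, ?_⟩
  · intro S m m' hS hm
    have hF := fr_spec hS
    refine Finset.sum_le_sum fun i _ => mul_le_mul_of_nonneg_left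
      (Probe.mono (h.ok i) hF.line fun z _ _ => ?_) (h.pos i)
    have hF' := fr_spec (m := m') (fun q hq => (hS q hq).trans hm)
    rcases hF.eq z with h1 | ⟨q, hq, h1⟩
    · rw [h1]
      exact hm.trans (hF'.line z)
    · rw [h1]
      exact hF'.disc q hq z
  · intro m
    have h1 : ∀ i, (j i).val (fun _ => m) = (j i).val (fun _ => 0) + m := by
      intro i
      have := Probe.shift (h.ok i) (f := fun _ => 0) (m := 0) (x := m) (fun _ => le_rfl)
      simpa using this
    unfold pot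
    rw [Finset.sum_mul, ← Finset.sum_add_distrib]
    exact Finset.sum_congr rfl fun i _ => by
      rw [h1]
      ring
  · intro S S' P hP0 hP1 hS hS' hSS
    rcases le_total P.2 (H / 2) with h1 | h1
    · exact pair_low h hP0 hP1 h1 hS hS' hSS
    · have e1 : mir H (mx P) = mx (mir H P) := rfl
      have h2 := pair_low h (S := S.image (mir H)) (S' := S'.image (mir H)) (P := mir H P)
        (by rw [mir_snd]; linear_combination hP1) (by rw [mir_snd]; linear_combination hP0) (by rw [mir_snd]; linear_combination h1)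
        hS.mirror (e1 ▸ hS'.mirror) (by
          intro q hq q' hq'
          obtain ⟨p, hp, rfl⟩ := Finset.mem_image.1 hq
          obtain ⟨p', hp', rfl⟩ := Finset.mem_image.1 hq'
          exact mir_sep (hSS p hp p' hp'))
      rw [← e1, gainAt_mirror h.sym, gainAt_mirror h.sym] at h2
      exact h2

/-- From the two-sided insertion inequality to the bound for the number of points. -/
theorem probe_machine2 {H : ℝ} {ι : Type} [Fintype ι] {c : ι → ℝ} {j : ι → Probe}
    {w : ℝ → ℝ → ℝ} (h : ProbeCert2 H c j w) :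
    ∃ C0 : ℝ, ∀ L : ℝ, 0 ≤ L → ∀ X : Finset Pt, UnitSep X → InStrip H X →
      (∀ p ∈ X, 0 ≤ p.1 ∧ p.1 ≤ L) → (X.card : ℝ) ≤ (∑ i, c i) * L + C0 := two_sweep h.swp

theorem countBound_of_probe2 {n : ℕ} {s : ℝ} (hs0 : 0 ≤ s) (hs1 : s < h0) {ι : Type} [Fintype ι]
    {c : ι → ℝ} {j : ι → Probe} {w : ℝ → ℝ → ℝ} (h : ProbeCert2 (n * h0 + s) c j w)
    (hρ : (∑ i, c i) * (n + 2 * g s) ≤ (n + 1) * (n + 2)) : CountBound n s := by
  obtain ⟨C0, hC0⟩ := probe_machine2 h
  refine countBound_of_sum (W := fun _ => 1) (ρ := ∑ i, c i) (C0 := C0) hs0 hs1 hρ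
    (fun _ _ _ => le_rfl) ?_
  intro L hL X hX hXH hXL
  have := hC0 L hL X hX hXH hXL
  simpa using this

end Pool.Agent.Strip051
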