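import Pool.Agent.Strip051.Two.Up

/-! # One side of the new point: comparison fronts with the floor coupling

If the new point is closer than `1 / 2` to the floor and the virtual discs above it and on the floor
overlap, then the lower front is a line, or the upper front is lower than the virtual one. -/

namespace Pool.Agent.Strip051

open Pool.Agent.StripNear Pool.Agent.StripSquare

/-! ### The coupling of the two exits -/

theorem ext_anti {r r' : ℝ} (h1 : 1 / 2 ≤ r) (h2 : r ≤ r') (h3 : r' ≤ 1) : ext r' ≤ ext r := by
  have hh := h0_sq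
  have hp := h0_pos
  have q1 := g_sq (r := r) (by linear_combination (3 / 2) * h2 + (3 / 2) * h3 + (mul_nonneg (sub_nonneg.mpr h1) (sub_nonneg.mpr h2)) +
    (mul_nonneg (sub_nonneg.mpr h1) (sub_nonneg.mpr h3)))
  have q2 := g_sq (r := r') (by linear_combination (3 / 2) * h3 + (mul_nonneg (sub_nonneg.mpr h1) (sub_nonneg.mpr h3)) +
    (mul_nonneg (sub_nonneg.mpr h2) (sub_nonneg.mpr h3)))
  have n1 := g_nonneg r
  have n2 := g_nonneg r'
  have m1 : g r ≤ h0 := by
    apply abs_le_of_sq_le_sq' _ hp.le |>.2
    linear_combination h1 - hh + q1 + (mul_nonneg (sub_nonneg.mpr h1) (sub_nonneg.mpr h1))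
  have m2 : g r' ≤ h0 := by
    apply abs_le_of_sq_le_sq' _ hp.le |>.2
    linear_combination h1 + h2 - hh + q2 + (mul_nonneg (sub_nonneg.mpr h1) (sub_nonneg.mpr h1)) +
      2 * (mul_nonneg (sub_nonneg.mpr h1) (sub_nonneg.mpr h2)) + (mul_nonneg (sub_nonneg.mpr h2) (sub_nonneg.mpr h2))
  have m3 : g r' ≤ g r := g_anti (by linear_combination h1) h2
  have e1 : (g r - g r') * (g r + g r') = (r' - r) * (r' + r) := by linear_combination q1 - q2
  have e2 : (r' - r) * 1 ≤ (r' - r) * (r' + r) :=
    mul_le_mul_of_nonneg_left (by linear_combination 2 * h1 + h2) (by linear_combination h2)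
  have e3 : (g r - g r') * (g r + g r') ≤ (g r - g r') * (2 * h0) :=
    mul_le_mul_of_nonneg_left (by linear_combination m1 + m2) (by linear_combination m3)
  unfold ext
  linear_combination -(1 / 2) * q1 + (1 / 2) * q2 + (1 / 2) * e2 + (1 / 2) * e3

theorem ext_symm {r r' : ℝ} (h1 : 1 / 2 ≤ r) (h2 : r ≤ 1) (h1' : 1 / 2 ≤ r') (h2' : r' ≤ 1)
    (h : r ≤ ext r') : r' ≤ ext r := by
  obtain ⟨a1, a2, a3, -⟩ := ext_invol h1' h2'
  have := ext_anti h1 h a3
  rwa [a1] at this

/-- The upper exits on the two sides. -/
theorem Ex.couple {S S' : Set Pt} {P P' : Pt} {H r z1 r' z1' : ℝ} (hP : P'.2 = P.2)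
    (h : Ex S P H r z1) (h' : Ex S' P' H r' z1') (hx : ∀ q ∈ S, q.1 ≤ P.1)
    (hx' : ∀ q ∈ S', q.1 ≤ P'.1) (hs : ∀ q ∈ S, Sep P q) (hs' : ∀ q ∈ S', Sep P' q)
    (hy : ∀ q ∈ S, q.2 ≤ H)
    (hpair : ∀ q ∈ S, ∀ q' ∈ S',
      1 ≤ ((P.1 - q.1) + (P'.1 - q'.1)) ^ 2 + (q.2 - q'.2) ^ 2) : r' ≤ ext r := by
  have hh := h0_sq
  have hp := h0_pos
  rcases h with ⟨a1, a2, a3, a4⟩ | ⟨b0, b1, b2, b3, b4, b5, b6⟩
  · rcases h' with ⟨c1, c2, c3, c4⟩ | ⟨d0, d1, d2, d3, d4, d5, d6⟩
    · have e1 : r' = r := by
        rw [c1, a1, hP]
      rw [e1]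
      have := g_gt_half a2 a3
      unfold ext
      linear_combination (1 / 2) * a3 + (mul_pos (sub_pos.mpr hp) (sub_pos.mpr this))
    · rw [hP] at d0
      exact absurd a3 (not_lt.mpr (by linear_combination -a1 + d0))
  · obtain ⟨i1, i2, i3, i4, i5⟩ := ext_invol b1 b2
    rcases h' with ⟨c1, c2, c3, c4⟩ | ⟨d0, d1, d2, d3, d4, d5, d6⟩
    · rw [hP] at c1
      exact absurd b0 (not_le.mpr (by linear_combination -c1 + c3))
    · obtain ⟨j1, j2, j3, j4, j5⟩ := ext_invol d1 d2
      rw [hP] at d3 d4
      rcases b6 with b6 | b6 | ⟨q, hq, k1, k2, k3⟩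
      · linear_combination b4 + d3 - b6
      · linear_combination d2 - b6
      · rcases d6 with d6 | d6 | ⟨q', hq', l1, l2, l3⟩
        · apply ext_symm b1 b2 d1 d2
          have := hy q hq
          linear_combination b3 + d4 - d6
        · rw [d6] at j1
          have : ext 1 = 1 / 2 := by
            unfold ext
            rw [g_one]
            ring
          linear_combination i2 - j1 + this
        · have w1 : (P.1 - q.1 + g (ext r)) ^ 2 + (ext r - (q.2 - P.2)) ^ 2 = 1 := by
            unfold arc at k1
            have h3 : g (z1 - q.2) = P.1 - q.1 + g (ext r) := by linear_combination k1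
            have h4 := g_sq (r := z1 - q.2) (by
              rw [← sq_abs]
              have := abs_nonneg (z1 - q.2)
              linear_combination k3 + (mul_nonneg (sub_nonneg.mpr k3) (sub_nonneg.mpr this)))
            rw [h3, b4] at h4
            linear_combination h4
          have w2 : (P'.1 - q'.1 + g (ext r')) ^ 2 + (ext r' - (q'.2 - P'.2)) ^ 2 = 1 := by
            unfold arc at l1
            have h3 : g (z1' - q'.2) = P'.1 - q'.1 + g (ext r') := by linear_combination l1
            have h4 := g_sq (r := z1' - q'.2) (by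
              rw [← sq_abs]
              have := abs_nonneg (z1' - q'.2)
              linear_combination l3 + (mul_nonneg (sub_nonneg.mpr l3) (sub_nonneg.mpr this)))
            rw [h3, d4] at h4
            rw [hP]
            linear_combination h4
          have s1 : 1 ≤ (P.1 - q.1) ^ 2 + (q.2 - P.2) ^ 2 := by
            have := hs q hq
            unfold Sep at this
            linear_combination this
          have s2 : 1 ≤ (P'.1 - q'.1) ^ 2 + (q'.2 - P'.2) ^ 2 := by
            have := hs' q' hq'
            unfold Sep at this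
            linear_combination this
          have s3 := hpair q hq q' hq'
          have s4 := couple_disc (t := ext r) (t' := ext r') i2 i3 j2 j3
            (sub_nonneg.2 (hx q hq)) (sub_nonneg.2 (hx' q' hq')) (by linear_combination b1 + k2)
            (by linear_combination d1 + l2) w1 w2 s1 s2 (by
              have : q.2 - P.2 - (q'.2 - P'.2) = q.2 - q'.2 := by
                rw [hP]
                ring
              rw [this]
              exact s3)
          have s5 : ext (ext r') = ext r' / 2 + h0 * g (ext r') := rfl
          linear_combination -j1 + s4 + s5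

/-! ### The comparison fronts -/

/-- The upper comparison front: the disc at the height `w` whose arc meets the new arc at the
height `t`. -/
noncomputable def hi (t w v : ℝ) : ℝ := max 0 (g (v - w) - (g (t - w) - g t))

/-- The comparison front with the upper disc at the height `w` and the lower disc on the floor. -/
noncomputable def gamH (t w y v : ℝ) : ℝ := if 0 ≤ v then hi t w v else vir y (-v)

theorem gamH_nonneg (t w y v : ℝ) : 0 ≤ gamH t w y v := by
  unfold gamH
  split
  · exact le_max_left _ _
  · exact vir_nonneg _ _

/-- The comparison relation between the old front `f` and `γ` (seen from `P`). -/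
def CmpG (f : ℝ → ℝ) (P : Pt) (γ : ℝ → ℝ) (z : ℝ) : Prop :=
  (f z ≤ P.1 + γ (z - P.2) ∧ P.1 + γ (z - P.2) ≤ arc P z) ∨
    (P.1 + γ (z - P.2) ≤ f z ∧ arc P z ≤ P.1 + γ (z - P.2))

/-- The rule for the height of the upper disc when it overlaps with the disc on the floor. -/
def WOk (w : ℝ → ℝ → ℝ) : Prop := ∀ y r, 0 ≤ y → y < 1 / 2 → 1 / 2 ≤ r → r < h0 * g y - y / 2 →
  w y r = r ∨ (r ≤ w y r ∧ w y r ≤ g (1 - g r) - y ∧ w y r ≤ ext r)

/-- The comparison fronts on one side of a point at the height `y`: `r` and `q` describe the
virtual discs above and below. -/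
inductive Sd (H : ℝ) (w : ℝ → ℝ → ℝ) (y : ℝ) : ℝ → ℝ → (ℝ → ℝ) → Prop
  | real (r q : ℝ) (hr : Adm (H - y) r) (hq : Adm y q)
      (hc : y < 1 / 2 → h0 * g y - y / 2 ≤ r) : Sd H w y r q (gam r q)
  | line (r : ℝ) (hy : y < 1 / 2) (h1 : 1 / 2 ≤ r) (h2 : r < h0 * g y - y / 2) :
      Sd H w y r y (gam r 0)
  | high (r : ℝ) (hy : y < 1 / 2) (h1 : 1 / 2 ≤ r) (h2 : r < h0 * g y - y / 2) :
      Sd H w y r y (gamH (ext r) (w y r) y)

theorem Sd.nonneg {H y r q : ℝ} {w : ℝ → ℝ → ℝ} {γ : ℝ → ℝ} (h : Sd H w y r q γ) (v : ℝ) :
    0 ≤ γ v := by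
  cases h
  · exact gam_nonneg _ _ _
  · exact gam_nonneg _ _ _
  · exact gamH_nonneg _ _ _ _

/-- The heights of a visible upper disc and of a visible lower disc differ by much. -/
theorem far_apart {S : Set Pt} {P q l : Pt} {r : ℝ} {w : ℝ} (h1 : 1 / 2 ≤ r) (h2 : r ≤ 1)
    (hy : P.2 < 1 / 2) (hw1 : w ≤ g (1 - g r) - P.2) (hw2 : w ≤ ext r)
    (hE : arc q (P.2 + ext r) ≤ P.1 + g (ext r)) (hq1 : P.1 - 1 < q.1) (hq2 : P.2 ≤ q.2)
    (hl0 : 0 ≤ l.2) (hl1 : P.1 - 1 < l.1) (hl2 : l.2 < P.2) (hqx : q.1 ≤ P.1) (hlx : l.1 ≤ P.1)
    (hs1 : Sep P q) (hs2 : Sep P l) (hs3 : Sep q l) : w ≤ q.2 - P.2 := by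
  by_contra hcon
  push Not at hcon
  obtain ⟨i1, i2, i3, i4, i5⟩ := ext_invol h1 h2
  have gr0 := g_nonneg r
  have gr1 := g_le_one r
  have gr := g_sq (r := r) (by linear_combination (3 / 2) * h2 + (mul_nonneg (sub_nonneg.mpr h1) (sub_nonneg.mpr h2)))
  have hy0 : 0 < P.2 := by linear_combination hl0 + hl2
  -- the upper disc
  have a1 : g r ≤ P.1 - q.1 := by
    rcases le_total (q.2 - P.2) r with h3 | h3
    · have h4 : 1 ≤ (P.1 - q.1) ^ 2 + (P.2 - q.2) ^ 2 := hs1
      apply abs_le_of_sq_le_sq' _ (by linear_combination hqx) |>.2
      linear_combination gr + (1 / 2) * h3 + h4 + (mul_nonneg (sub_nonneg.mpr h1) (sub_nonneg.mpr h3)) +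
        (mul_nonneg (sub_nonneg.mpr hq2) (sub_nonneg.mpr h3))
    · unfold arc at hE
      have h4 : g (ext r - r) ≤ g (P.2 + ext r - q.2) := g_anti (by linear_combination hw2 + hcon) (by linear_combination h3)
      linear_combination hE - i5 + h4
  -- the lower disc
  have a2 : g r ≤ P.1 - l.1 := by
    have h4 : 1 ≤ (P.1 - l.1) ^ 2 + (P.2 - l.2) ^ 2 := hs2
    apply abs_le_of_sq_le_sq' _ (by linear_combination hlx) |>.2
    linear_combination h1 + (1 / 2) * hl0 + gr + h4 + (mul_nonneg (sub_nonneg.mpr h1) (sub_nonneg.mpr h1)) +
      (mul_pos (sub_pos.mpr hy) (sub_pos.mpr hy)) + (mul_nonneg (sub_nonneg.mpr (le_of_lt hy)) (sub_nonneg.mpr hl0)) +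
      2 * (mul_pos (sub_pos.mpr hy) (sub_pos.mpr hl2)) + (mul_nonneg (sub_nonneg.mpr hl0) (sub_nonneg.mpr (le_of_lt hl2)))
  have a3 : (q.1 - l.1) ^ 2 ≤ (1 - g r) ^ 2 := by
    apply sq_le_sq'
    · linear_combination hq1 + a2
    · linear_combination hl1 + a1
  have a4 : 1 ≤ (q.1 - l.1) ^ 2 + (q.2 - l.2) ^ 2 := hs3
  have a5 := g_nonneg (1 - g r)
  have a6 := g_sq (r := 1 - g r) (by linear_combination gr0 + (mul_nonneg (sub_nonneg.mpr (sq_nonneg (1 - g r))) (sub_nonneg.mpr gr0)) +
    (mul_nonneg (sub_nonneg.mpr (sq_nonneg (g r))) (sub_nonneg.mpr gr1)))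
  have a7 : q.2 - l.2 < g (1 - g r) := by linear_combination hw1 + hl0 + hcon
  have a8 : 0 ≤ q.2 - l.2 := by linear_combination hq2 + hl2
  exact absurd a3 (not_le.mpr (by linear_combination a4 + a6 + (mul_nonneg (sub_nonneg.mpr hw1) (sub_nonneg.mpr hw1)) + 2 * (mul_nonneg (sub_nonneg.mpr hw1) (sub_nonneg.mpr hq2)) + 2 * (mul_nonneg (sub_nonneg.mpr hw1) (sub_nonneg.mpr hl0)) + 2 * (mul_nonneg (sub_nonneg.mpr hw1) (sub_nonneg.mpr (le_of_lt hl2))) + 2 * (mul_nonneg (sub_nonneg.mpr hw1) (sub_nonneg.mpr (le_of_lt hcon))) + 2 * (mul_nonneg (sub_nonneg.mpr hq2) (sub_nonneg.mpr hl0)) + 2 * (mul_nonneg (sub_nonneg.mpr hq2) (sub_nonneg.mpr (le_of_lt hcon))) + (mul_nonneg (sub_nonneg.mpr hl0) (sub_nonneg.mpr hl0)) + 2 * (mul_nonneg (sub_nonneg.mpr hl0) (sub_nonneg.mpr (le_of_lt hl2))) + 2 * (mul_nonneg (sub_nonneg.mpr hl0) (sub_nonneg.mpr (le_of_lt hcon))) + 2 * (mul_pos (sub_pos.mpr hl2) (sub_pos.mpr hcon)) + (mul_pos (sub_pos.mpr hcon) (sub_pos.mpr hcon))))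

/-- The comparison of the old front with the candidates on one side of the new point. -/
theorem side {S : Set Pt} {P : Pt} {f : ℝ → ℝ} {H : ℝ} {w : ℝ → ℝ → ℝ} (hw : WOk w)
    (hH : h0 + 1 / 2 ≤ H) (hF : Fr S P.1 f) (hs : ∀ q ∈ S, 0 ≤ q.2 ∧ q.2 ≤ H)
    (hsep : ∀ q ∈ S, Sep P q) (hsep2 : ∀ p ∈ S, ∀ q ∈ S, p ≠ q → Sep p q)
    (hP : 0 ≤ P.2 ∧ P.2 ≤ H) :
    ∃ r q γ z1 z2, Sd H w P.2 r q γ ∧ Ex S P H r z1 ∧ Ex (mirS H S) (mir H P) H q z2 ∧
      ∀ z, 0 ≤ z → z ≤ H → CmpG f P γ z := by
  have hh := h0_sq
  have hp := h0_pos
  obtain ⟨r, z1, hr, c1, c2⟩ := up_compare3 hF (fun q hq => (hs q hq).2) hsep hP.2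
  obtain ⟨q, z2, hq, d1, d2⟩ := up_compare3 (P := mir H P) (H := H) (hF.mirror H)
    (fun q hq => by
      have := (hs _ hq).1
      rw [mir_snd] at this
      linear_combination this)
    (fun q hq => by
      apply sep_mir (H := H)
      rw [mir_mir]
      exact hsep _ hq)
    (by
      rw [mir_snd]
      linear_combination hP.1)
  -- the upper part and the lower part of the virtual comparison
  have up : ∀ z, P.2 ≤ z → z ≤ H → (f z ≤ P.1 + vir r (z - P.2) ∧
      P.1 + vir r (z - P.2) ≤ arc P z) ∨ (P.1 + vir r (z - P.2) ≤ f z ∧
      arc P z ≤ P.1 + vir r (z - P.2)) := by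
    intro z h1 h2
    rcases le_or_gt z z1 with h3 | h3
    · exact Or.inl (c1 z h1 h3)
    · exact Or.inr (c2 z h3 h2)
  have lo : ∀ z, 0 ≤ z → z ≤ P.2 → (f z ≤ P.1 + vir q (-(z - P.2)) ∧
      P.1 + vir q (-(z - P.2)) ≤ arc P z) ∨ (P.1 + vir q (-(z - P.2)) ≤ f z ∧
      arc P z ≤ P.1 + vir q (-(z - P.2))) := by
    intro z h1 h2
    have e1 : H - z - (mir H P).2 = -(z - P.2) := by
      rw [mir_snd]
      ring
    rcases le_or_gt (H - z) z2 with h3 | h3
    · have := d1 (H - z) (by rw [mir_snd]; linear_combination h2) h3
      rw [sub_sub_cancel, mir_fst, arc_mir, sub_sub_cancel, e1] at this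
      exact Or.inl this
    · have := d2 (H - z) h3 (by linear_combination h1)
      rw [sub_sub_cancel, mir_fst, arc_mir, sub_sub_cancel, e1] at this
      exact Or.inr this
  have hr' : Adm (H - P.2) r := by
    rcases hr with ⟨a1, a2, a3, a4⟩ | ⟨b0, b1, b2, b3, b4, b5, b6⟩
    · exact Or.inr ⟨a1, by linear_combination hP.2, by linear_combination -a1 + a3⟩
    · exact Or.inl ⟨b1, b2, by linear_combination b3, by linear_combination -b4 + b5⟩
  have hq' : Adm P.2 q := by
    rcases hq with ⟨a1, a2, a3, a4⟩ | ⟨b0, b1, b2, b3, b4, b5, b6⟩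
    · rw [mir_snd, sub_sub_cancel] at a1
      exact Or.inr ⟨a1, by linear_combination hP.1, by linear_combination -a1 + a3⟩
    · rw [mir_snd] at b0 b3 b4
      exact Or.inl ⟨b1, b2, by linear_combination b3, by linear_combination -b4 + b5⟩
  by_cases hc : P.2 < 1 / 2 → h0 * g P.2 - P.2 / 2 ≤ r
  · refine ⟨r, q, gam r q, z1, z2, Sd.real r q hr' hq' hc, hr, hq, ?_⟩
    intro z h1 h2
    unfold CmpG gam
    split
    · next h => exact up z (by linear_combination h) h2
    · next h => exact lo z h1 (by linear_combination (not_le.mp h))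
  · push Not at hc
    obtain ⟨hy, hrl⟩ := hc
    -- the virtual disc above is at an exit
    have hh1 : h0 < 1 := by exact not_le.mp (fun hg__ => absurd hg__ (not_le.mpr (by linear_combination (1 / 2) * hh + (1 / 2) * (mul_nonneg (sub_nonneg.mpr hg__) (sub_nonneg.mpr hg__)))))
    obtain ⟨b0, b1, b2, b3, b4, b5, b6⟩ := hr.resolve_left (by
      rintro ⟨a1, a2, a3, a4⟩
      exact absurd a3 (not_lt.mpr (by linear_combination hH + hy - a1)))
    obtain ⟨i1, i2, i3, i4, i5⟩ := ext_invol b1 b2
    have hqy : q = P.2 := by
      have hgt : (1 / 2 : ℝ) < h0 := by linear_combination -hh + (mul_pos (sub_pos.mpr hp) (sub_pos.mpr hh1))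
      rcases hq' with ⟨h1, h2, h3, h4⟩ | ⟨h1, -, -⟩
      · exact le_antisymm (by linear_combination h3) (by linear_combination hy + h1)
      · exact h1
    subst hqy
    have hin : ∀ z, P.2 ≤ z → z ≤ z1 → f z ≤ arc P z := fun z h1 h2 =>
      (c1 z h1 h2).1.trans (c1 z h1 h2).2
    have hfE : f (P.2 + ext r) ≤ P.1 + g (ext r) := by
      have h1 := hin (P.2 + ext r) (by linear_combination i2) (by linear_combination -b4)
      unfold arc at h1
      rwa [add_sub_cancel_left] at h1
    by_cases hl : ∃ l ∈ S, l.2 < P.2 ∧ P.1 - 1 < l.1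
    · -- some lower disc is visible
      obtain ⟨l, hlS, hl2, hl1⟩ := hl
      refine ⟨r, P.2, gamH (ext r) (w P.2 r) P.2, z1, z2, Sd.high r hy b1 hrl, hr, hq, ?_⟩
      intro z h1 h2
      unfold CmpG gamH
      split
      · next h =>
        rcases hw P.2 r hP.1 hy b1 hrl with h3 | ⟨h3, h4, h5⟩
        · -- the rule gives the virtual disc
          have h4 : hi (ext r) (w P.2 r) (z - P.2) = vir r (z - P.2) := by
            unfold hi vir
            rw [h3, ← i5]
            congr 1
            ring
          rw [h4]
          exact up z (by linear_combination h) h2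
        · set W := w P.2 r with hWd
          -- every visible upper disc is high
          have key : ∀ q ∈ S, P.1 - 1 < q.1 → P.2 ≤ q.2 → W ≤ q.2 - P.2 := by
            intro q hqS k1 k2
            exact far_apart (S := S) b1 b2 hy h4 h5 ((hF.disc q hqS _).trans hfE) k1 k2
              (hs l hlS).1 hl1 hl2 (hF.le q hqS) (hF.le l hlS) (hsep q hqS) (hsep l hlS)
              (hsep2 q hqS l hlS fun e => by
                rw [e] at k2
                exact absurd k2 (not_le.mpr (by linear_combination hl2)))
          -- the comparison disc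
          set u : Pt := (P.1 - (g (ext r - W) - g (ext r)), P.2 + W) with hu
          have hu2 : u.2 = P.2 + W := rfl
          have huE : arc u (P.2 + ext r) = P.1 + g (ext r) := by
            unfold arc
            rw [hu2, show P.2 + ext r - (P.2 + W) = ext r - W by ring]
            simp only [hu]
            ring
          have hPE : arc P (P.2 + ext r) = P.1 + g (ext r) := by
            unfold arc
            rw [add_sub_cancel_left]
          have hhi : P.1 + hi (ext r) W (z - P.2) = max P.1 (arc u z) := by
            unfold hi arc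
            rw [← max_add_add_left, add_zero, hu2, show z - (P.2 + W) = z - P.2 - W by ring]
            simp only [hu]
            congr 1
            ring
          rw [hhi]
          have hzP : P.2 ≤ z := by linear_combination h
          rcases le_or_gt z (P.2 + ext r) with hz | hz
          · left
            refine ⟨?_, ?_⟩
            · rcases hF.eq z with k0 | ⟨q, hqS, k0⟩
              · rw [k0]
                exact le_max_left _ _
              · rw [k0]
                rcases lt_or_ge q.2 P.2 with k1 | k1
                · -- a lower disc is behind the line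
                  refine le_trans ?_ (le_max_left _ _)
                  have k2 := arc_le_of_sep (hF.le q hqS) (hsep q hqS)
                  have k3 : arc q z ≤ arc q P.2 := by
                    unfold arc
                    have := g_anti (a := P.2 - q.2) (b := z - q.2) (by linear_combination k1) (by linear_combination h)
                    linear_combination this
                  exact k3.trans k2
                · rcases le_or_gt q.1 (P.1 - 1) with k2 | k2
                  · refine le_trans ?_ (le_max_left _ _)
                    linear_combination (arc_le q z) + k2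
                  · have k3 := key q hqS k2 k1
                    rcases le_or_gt (q.2 - 1) z with k4 | k4
                    · refine le_trans ?_ (le_max_right _ _)
                      have k5 := arc_mono (p := u) (q := q) (by rw [hu2]; linear_combination k3) hz k4
                        (by rw [hu2]; linear_combination b1 + i3 + h3)
                      have k6 := (hF.disc q hqS (P.2 + ext r)).trans hfE
                      linear_combination -huE + k5 + k6
                    · rw [arc_far (by rw [abs_of_nonpos (by linear_combination k4)]; linear_combination k4)]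
                      exact (hF.le q hqS).trans (le_max_left _ _)
            · apply max_le (le_arc P z)
              have k5 := arc_mono (p := P) (q := u) (by rw [hu2]; linear_combination b1 + h3) hz
                (by rw [hu2]; linear_combination i3 + h + h5) (by linear_combination i3)
              linear_combination huE - hPE + k5
          · right
            refine ⟨?_, ?_⟩
            · apply max_le (hF.line z)
              rcases b6 with k0 | k0 | ⟨q, hqS, k1, k2, k3⟩
              · exact absurd h2 (not_le.mpr (by linear_combination b4 + hz - k0))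
              · -- the exit is on the line
                have k1 : arc u z ≤ P.1 := by
                  unfold arc
                  rw [hu2]
                  simp only [hu]
                  rw [k0, g_one]
                  have : g (z - (P.2 + W)) ≤ g (1 - W) := by
                    apply g_anti (by linear_combination i3 + h5)
                    linear_combination hz - k0
                  linear_combination this
                exact k1.trans (hF.line z)
              · rw [b4] at k1 k3
                rw [abs_le] at k3
                have k4 : P.1 - 1 < q.1 ∨ ext r = 1 := by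
                  rcases eq_or_lt_of_le i3 with k5 | k5
                  · exact Or.inr k5
                  · left
                    have k6 : 0 < g (ext r) := by
                      unfold g
                      exact Real.sqrt_pos.2 (by linear_combination (3 / 2) * (mul_pos (sub_pos.mpr hp) (sub_pos.mpr k5)) + (3 / 2) * (mul_pos (sub_pos.mpr hh1) (sub_pos.mpr k5)) +
                        (mul_nonneg (sub_nonneg.mpr i2) (sub_nonneg.mpr i3)))
                    have k7 := arc_le q (P.2 + ext r)
                    linear_combination -k1 + k6 + k7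
                rcases k4 with k4 | k4
                · have k5 := key q hqS k4 (by linear_combination b1 + k2)
                  rcases le_or_gt z (u.2 + 1) with k6 | k6
                  · have k7 := arc_mono (p := u) (q := q) (by rw [hu2]; linear_combination k5) hz.le
                      (by linear_combination k3.1) k6
                    have k8 := hF.disc q hqS z
                    linear_combination huE - k1 + k7 + k8
                  · rw [arc_far (by rw [abs_of_nonneg] <;> linarith)]
                    have k7 := hF.line z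
                    have k8 : g (ext r) ≤ g (ext r - W) := g_anti (by linear_combination h5) (by linear_combination b1 + h3)
                    simp only [hu]
                    linear_combination k7 + k8
                · have k5 : arc u z ≤ P.1 := by
                    unfold arc
                    rw [hu2]
                    simp only [hu]
                    rw [k4, g_one]
                    have : g (z - (P.2 + W)) ≤ g (1 - W) := by
                      apply g_anti (by linear_combination i3 + h5)
                      linear_combination hz - k4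
                    linear_combination this
                  exact k5.trans (hF.line z)
            · rcases le_or_gt (P.2 + 1) z with k0 | k0
              · rw [arc_far (by rw [abs_of_nonneg] <;> linarith)]
                exact le_max_left _ _
              · refine le_trans ?_ (le_max_right _ _)
                have k5 := arc_mono (p := P) (q := u) (by rw [hu2]; linear_combination b1 + h3) hz.le
                  (by rw [hu2]; linear_combination h5) k0.le
                linear_combination -huE + hPE + k5
      · next h => exact lo z h1 (by linear_combination (not_le.mp h))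
    · -- no lower disc is visible
      push Not at hl
      refine ⟨r, P.2, gam r 0, z1, z2, Sd.line r hy b1 hrl, hr, hq, ?_⟩
      intro z h1 h2
      unfold CmpG gam
      split
      · next h => exact up z (by linear_combination h) h2
      · next h =>
        left
        have e1 : vir 0 (-(z - P.2)) = 0 := by
          unfold vir
          rw [g_zero]
          exact max_eq_left (by linear_combination (g_le_one (-(z - P.2) - 0)))
        rw [e1, add_zero]
        refine ⟨?_, le_arc P z⟩
        rcases hF.eq z with k0 | ⟨q, hqS, k0⟩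
        · exact k0.le
        · rw [k0]
          rcases lt_or_ge q.2 P.2 with k1 | k1
          · linear_combination (hl q hqS k1) + (arc_le q z)
          · have k2 := arc_le_of_sep (hF.le q hqS) (hsep q hqS)
            have k3 : arc q z ≤ arc q P.2 := by
              unfold arc
              rw [← g_neg (z - q.2), ← g_neg (P.2 - q.2)]
              have := g_anti (a := -(P.2 - q.2)) (b := -(z - q.2)) (by linear_combination k1) (by linear_combination (not_le.mp h))
              linear_combination this
            exact k3.trans k2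

end Pool.Agent.Strip051
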