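import Pool.Agent.Strip051.Two.Couple

/-! # The sweep from the left and the sweep from the right

A potential of fronts is used twice: the points are inserted by increasing and by decreasing first
coordinate.  It is enough that the two gains of every point have the sum two. -/

namespace Pool.Agent.Strip051

open Pool.Agent.StripNear Pool.Agent.StripSquare

/-- The front of a finite set of discs and of the line `x = m`. -/
noncomputable def fr (S : Finset Pt) (m z : ℝ) : ℝ := S.fold max m (fun q => arc q z)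

theorem fr_empty (m : ℝ) : fr ∅ m = fun _ => m := rfl

theorem fr_insert {S : Finset Pt} {P : Pt} (h : P ∉ S) (m : ℝ) :
    fr (insert P S) m = fun z => max (fr S m z) (arc P z) := by
  funext z
  unfold fr
  rw [Finset.fold_insert h, max_comm]

theorem fr_spec {S : Finset Pt} {m : ℝ} (h : ∀ q ∈ S, q.1 ≤ m) : Fr {p | p ∈ S} m (fr S m) := by
  classical
  refine ⟨?_, ?_, ?_, ?_, h⟩
  · clear h
    induction S using Finset.induction_on with
    | empty => exact continuous_const
    | insert P S hP ih =>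
      rw [fr_insert hP]
      exact ih.max (arc_cont P)
  · intro z
    exact (Finset.le_fold_max m).2 (Or.inl le_rfl)
  · intro q hq z
    exact (Finset.le_fold_max _).2 (Or.inr ⟨q, hq, le_rfl⟩)
  · intro z
    clear h
    induction S using Finset.induction_on with
    | empty => exact Or.inl rfl
    | insert P S hP ih =>
      rw [fr_insert hP]
      rcases le_total (fr S m z) (arc P z) with h1 | h1
      · right
        exact ⟨P, Finset.mem_insert_self _ _, max_eq_right h1⟩
      · simp only [max_eq_left h1]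
        rcases ih with h2 | ⟨q, hq, h2⟩
        · exact Or.inl h2
        · exact Or.inr ⟨q, Finset.mem_insert_of_mem hq, h2⟩

theorem fr_le {S : Finset Pt} {m M z : ℝ} (hm : m ≤ M) (h : ∀ q ∈ S, arc q z ≤ M) :
    fr S m z ≤ M := (Finset.fold_max_le M).2 ⟨hm, h⟩

theorem fr_const {S : Finset Pt} {M : ℝ} (h : ∀ q ∈ S, q.1 + 1 ≤ M) : fr S M = fun _ => M := by
  funext z
  apply le_antisymm (fr_le le_rfl fun q hq => (arc_le q z).trans (h q hq))
  exact (Finset.le_fold_max M).2 (Or.inl le_rfl)

/-- The discs of `S` are left of `P`, in the strip, separated and separated from `P`. -/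
structure Lft (H : ℝ) (S : Finset Pt) (P : Pt) : Prop where
  x : ∀ q ∈ S, q.1 ≤ P.1
  lo : ∀ q ∈ S, 0 ≤ q.2
  hi : ∀ q ∈ S, q.2 ≤ H
  sep : ∀ q ∈ S, Sep P q
  sep2 : ∀ p ∈ S, ∀ q ∈ S, p ≠ q → Sep p q

theorem sep_self (P : Pt) : ¬ Sep P P := by
  unfold Sep
  simp

theorem Lft.notMem {H : ℝ} {S : Finset Pt} {P : Pt} (h : Lft H S P) : P ∉ S :=
  fun hP => sep_self P (h.sep P hP)

/-- The gain of the potential at the insertion of `P`. -/
noncomputable def gainAt (Φ : (ℝ → ℝ) → ℝ) (S : Finset Pt) (P : Pt) : ℝ :=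
  Φ (fun z => max (fr S P.1 z) (arc P z)) - Φ (fr S P.1)

/-- The reflection in the vertical axis. -/
def mx (p : Pt) : Pt := (-p.1, p.2)

theorem mx_fst (p : Pt) : (mx p).1 = -p.1 := rfl

theorem mx_snd (p : Pt) : (mx p).2 = p.2 := rfl

theorem mx_mx (p : Pt) : mx (mx p) = p := by
  ext
  · simp [mx]
  · rfl

theorem mx_inj : Function.Injective mx := fun p q h => by rw [← mx_mx p, h, mx_mx]

theorem sep_mx {p q : Pt} (h : Sep p q) : Sep (mx p) (mx q) := by
  unfold Sep at *
  simp only [mx]
  linear_combination h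

/-- A potential which can be used for the double sweep. -/
structure Swp (H ρ : ℝ) (Φ : (ℝ → ℝ) → ℝ) : Prop where
  raise : ∀ (S : Finset Pt) (m m' : ℝ), (∀ q ∈ S, q.1 ≤ m) → m ≤ m' → Φ (fr S m) ≤ Φ (fr S m')
  shift : ∀ m, Φ (fun _ => m) = Φ (fun _ => 0) + ρ * m
  pair : ∀ (S S' : Finset Pt) (P : Pt), 0 ≤ P.2 → P.2 ≤ H → Lft H S P → Lft H S' (mx P) →
    (∀ q ∈ S, ∀ q' ∈ S', Sep q (mx q')) → 2 ≤ gainAt Φ S P + gainAt Φ S' (mx P)

/-- One sweep, in an order which refines the order of the first coordinates. -/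
theorem sweep {α : Type} [LinearOrder α] {κ : Pt → α} (hinj : Function.Injective κ)
    (hm : ∀ p q, κ p ≤ κ q → p.1 ≤ q.1) {Φ : (ℝ → ℝ) → ℝ}
    (hr : ∀ (S : Finset Pt) (m m' : ℝ), (∀ q ∈ S, q.1 ≤ m) → m ≤ m' → Φ (fr S m) ≤ Φ (fr S m'))
    {m0 : ℝ} (X : Finset Pt) : (∀ p ∈ X, m0 ≤ p.1) → ∀ m, m0 ≤ m → (∀ p ∈ X, p.1 ≤ m) →
      Φ (fun _ => m0) + ∑ P ∈ X, gainAt Φ (X.filter (fun q => κ q < κ P)) P ≤ Φ (fr X m) := by
  classical
  refine Finset.induction_on_max_value κ X ?_ ?_
  · intro _ m hm0 _
    rw [Finset.sum_empty, add_zero]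
    have := hr ∅ m0 m (fun q hq => absurd hq (Finset.notMem_empty q)) hm0
    rwa [fr_empty, fr_empty] at this
  · intro P s hPs hmax ih hX m hm0 hXm
    have h1 := ih (fun q hq => hX q (Finset.mem_insert_of_mem hq)) P.1
      (hX P (Finset.mem_insert_self _ _)) (fun q hq => hm q P (hmax q hq))
    have h2 : (insert P s).filter (fun q => κ q < κ P) = s := by
      ext q
      rw [Finset.mem_filter, Finset.mem_insert]
      constructor
      · rintro ⟨h3 | h3, h4⟩
        · rw [h3] at h4
          exact absurd h4 (lt_irrefl _)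
        · exact h3
      · intro h3
        refine ⟨Or.inr h3, lt_of_le_of_ne (hmax q h3) ?_⟩
        intro h4
        exact hPs (hinj h4 ▸ h3)
    have h3 : ∀ Q ∈ s, (insert P s).filter (fun q => κ q < κ Q) =
        s.filter (fun q => κ q < κ Q) := by
      intro Q hQ
      rw [Finset.filter_insert, if_neg (not_lt.2 (hmax Q hQ))]
    rw [Finset.sum_insert hPs, h2, Finset.sum_congr rfl fun Q hQ => by rw [h3 Q hQ]]
    have h4 := hr (insert P s) P.1 m (fun q hq => by
      rcases Finset.mem_insert.1 hq with rfl | hq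
      · exact le_rfl
      · exact hm q P (hmax q hq)) (hXm P (Finset.mem_insert_self _ _))
    rw [fr_insert hPs] at h4
    unfold gainAt at h1 ⊢
    linear_combination h1 + h4

/-- The double sweep. -/
theorem two_sweep {H ρ : ℝ} {Φ : (ℝ → ℝ) → ℝ} (hΦ : Swp H ρ Φ) :
    ∃ C0 : ℝ, ∀ L : ℝ, 0 ≤ L → ∀ X : Finset Pt, UnitSep X → InStrip H X →
      (∀ p ∈ X, 0 ≤ p.1 ∧ p.1 ≤ L) → (X.card : ℝ) ≤ ρ * L + C0 := by
  classical
  refine ⟨ρ, ?_⟩
  intro L hL X hX hXH hXL
  have hinj : Function.Injective (fun p : Pt => toLex p) := fun p q h => toLex.injective h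
  have hm : ∀ p q : Pt, toLex p ≤ toLex q → p.1 ≤ q.1 := by
    intro p q h
    rw [Prod.Lex.le_iff] at h
    rcases h with h | ⟨h, -⟩
    · exact h.le
    · exact h.le
  -- the sweep from the left
  have h1 := sweep hinj hm hΦ.raise (m0 := 0) X (fun p hp => (hXL p hp).1) (L + 1) (by linear_combination hL)
    (fun p hp => by linear_combination ((hXL p hp).2))
  rw [fr_const (fun q hq => by linear_combination ((hXL q hq).2)), hΦ.shift (L + 1)] at h1
  -- the sweep from the right
  have h2 := sweep (κ := fun p : Pt => OrderDual.toDual (toLex (mx p)))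
    (fun p q h => mx_inj (toLex.injective (OrderDual.toDual.injective h)))
    (fun p q h => by
      have h3 := hm (mx q) (mx p) (OrderDual.toDual_le_toDual.1 h)
      simp only [mx_fst] at h3
      linear_combination h3) hΦ.raise (m0 := -L) (X.image mx)
    (fun p hp => by
      obtain ⟨q, hq, rfl⟩ := Finset.mem_image.1 hp
      simp only [mx_fst]
      linear_combination ((hXL q hq).2)) 1 (by linear_combination hL)
    (fun p hp => by
      obtain ⟨q, hq, rfl⟩ := Finset.mem_image.1 hp
      simp only [mx_fst]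
      linear_combination ((hXL q hq).1))
  rw [fr_const (fun p hp => by
      obtain ⟨q, hq, rfl⟩ := Finset.mem_image.1 hp
      simp only [mx_fst]
      linear_combination ((hXL q hq).1)), hΦ.shift 1, hΦ.shift (-L),
    Finset.sum_image fun p _ q _ h => mx_inj h] at h2
  -- the pairs
  have h3 : ∀ P ∈ X, 2 ≤ gainAt Φ (X.filter (fun q => toLex q < toLex P)) P +
      gainAt Φ ((X.image mx).filter (fun q => OrderDual.toDual (toLex (mx q)) <
        OrderDual.toDual (toLex (mx (mx P))))) (mx P) := by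
    intro P hP
    have hne : ∀ q ∈ X, toLex q ≠ toLex P → Sep P q := by
      intro q hq h
      exact hX P hP q hq fun e => h (by rw [e])
    apply hΦ.pair _ _ _ (hXH P hP).1 (hXH P hP).2
    · refine ⟨?_, ?_, ?_, ?_, ?_⟩
      · intro q hq
        rw [Finset.mem_filter] at hq
        exact hm q P hq.2.le
      · intro q hq
        rw [Finset.mem_filter] at hq
        exact (hXH q hq.1).1
      · intro q hq
        rw [Finset.mem_filter] at hq
        exact (hXH q hq.1).2
      · intro q hq
        rw [Finset.mem_filter] at hq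
        exact hne q hq.1 hq.2.ne
      · intro p hp q hq hpq
        rw [Finset.mem_filter] at hp hq
        exact hX p hp.1 q hq.1 hpq
    · have h4 : ∀ q ∈ (X.image mx).filter (fun q => OrderDual.toDual (toLex (mx q)) <
          OrderDual.toDual (toLex (mx (mx P)))), ∃ p ∈ X, toLex P < toLex p ∧ q = mx p := by
        intro q hq
        rw [Finset.mem_filter] at hq
        obtain ⟨h5, h6⟩ := hq
        obtain ⟨p, hp, rfl⟩ := Finset.mem_image.1 h5
        rw [mx_mx, mx_mx] at h6
        exact ⟨p, hp, OrderDual.toDual_lt_toDual.1 h6, rfl⟩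
      refine ⟨?_, ?_, ?_, ?_, ?_⟩
      · intro q hq
        obtain ⟨p, hp, h5, rfl⟩ := h4 q hq
        have := hm P p h5.le
        simp only [mx_fst]
        linear_combination this
      · intro q hq
        obtain ⟨p, hp, h5, rfl⟩ := h4 q hq
        exact (hXH p hp).1
      · intro q hq
        obtain ⟨p, hp, h5, rfl⟩ := h4 q hq
        exact (hXH p hp).2
      · intro q hq
        obtain ⟨p, hp, h5, rfl⟩ := h4 q hq
        exact sep_mx (hne p hp h5.ne')
      · intro q1 hq1 q2 hq2 hq
        obtain ⟨p1, hp1, -, rfl⟩ := h4 q1 hq1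
        obtain ⟨p2, hp2, -, rfl⟩ := h4 q2 hq2
        exact sep_mx (hX p1 hp1 p2 hp2 fun e => hq (by rw [e]))
    · intro q hq q' hq'
      rw [Finset.mem_filter] at hq hq'
      obtain ⟨h5, h6⟩ := hq'
      obtain ⟨p, hp, rfl⟩ := Finset.mem_image.1 h5
      rw [mx_mx, mx_mx] at h6
      rw [mx_mx]
      apply hX q hq.1 p hp
      intro e
      have h7 := hq.2
      rw [e] at h7
      exact lt_irrefl _ (h7.trans (OrderDual.toDual_lt_toDual.1 h6))
  have h4 : 2 * (X.card : ℝ) ≤ ∑ P ∈ X, (gainAt Φ (X.filter (fun q => toLex q < toLex P)) P +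
      gainAt Φ ((X.image mx).filter (fun q => OrderDual.toDual (toLex (mx q)) <
        OrderDual.toDual (toLex (mx (mx P))))) (mx P)) := by
    calc 2 * (X.card : ℝ) = ∑ _P ∈ X, (2 : ℝ) := by
          rw [Finset.sum_const, nsmul_eq_mul]
          ring
      _ ≤ _ := Finset.sum_le_sum h3
  rw [Finset.sum_add_distrib] at h4
  linear_combination (1 / 2) * h1 + (1 / 2) * h2 + (1 / 2) * h4

end Pool.Agent.Strip051
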