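import Pool.Agent.Strip051.Two.Sweep
import Pool.Agent.Strip051.Kern.Ins

/-! # The comparison with the reason of the exit, the coupling of the two sides -/

namespace Pool.Agent.Strip051

open Pool.Agent.StripNear Pool.Agent.StripSquare

/-- The virtual disc `r` and the height `z1` of the exit, with the reason: the wall is close, or
the exit is at the wall, on the line, or on a disc of `S`. -/
def Ex (S : Set Pt) (P : Pt) (H r z1 : ℝ) : Prop :=
  (r = H - P.2 ∧ 0 ≤ r ∧ r < h0 ∧ z1 = H) ∨
    (h0 ≤ H - P.2 ∧ 1 / 2 ≤ r ∧ r ≤ 1 ∧ P.2 + r ≤ H ∧ z1 = P.2 + ext r ∧ z1 ≤ H ∧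
      (z1 = H ∨ ext r = 1 ∨ ∃ q ∈ S, arc q z1 = P.1 + g (ext r) ∧ r ≤ q.2 - P.2 ∧
        |z1 - q.2| ≤ 1))

/-- The comparison above the new point. -/
theorem up_compare3 {S : Set Pt} {P : Pt} {f : ℝ → ℝ} {H : ℝ} (hF : Fr S P.1 f)
    (hs : ∀ q ∈ S, q.2 ≤ H) (hsep : ∀ q ∈ S, Sep P q) (hP : P.2 ≤ H) :
    ∃ r z1, Ex S P H r z1 ∧
      (∀ z, P.2 ≤ z → z ≤ z1 → f z ≤ P.1 + vir r (z - P.2) ∧
        P.1 + vir r (z - P.2) ≤ arc P z) ∧
      (∀ z, z1 < z → z ≤ H → P.1 + vir r (z - P.2) ≤ f z ∧
        arc P z ≤ P.1 + vir r (z - P.2)) := by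
  have hh := h0_sq
  have hp := h0_pos
  have hh1 : h0 < 1 := by exact not_le.mp (fun hg__ => absurd hg__ (not_le.mpr (by linear_combination (1 / 2) * hh + (1 / 2) * (mul_nonneg (sub_nonneg.mpr hg__) (sub_nonneg.mpr hg__)))))
  rcases lt_or_ge (H - P.2) h0 with hd | hd
  · exact ⟨H - P.2, H, Or.inl ⟨rfl, by linear_combination hP, hd, rfl⟩,
      fun z h1 h2 => up_wall2 hF hs hsep (by linear_combination hP) hd h1 h2,
      fun z h1 h2 => absurd h1 (not_lt.2 h2)⟩
  · set e := min (H - P.2) 1 with he
    have he0 : h0 ≤ e := le_min hd hh1.le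
    set D : ℝ → ℝ := fun v => f (P.2 + v) - P.1 - g v with hD
    have hDc : Continuous D := by
      have h1 := hF.cont
      have h2 := g_cont
      exact ((h1.comp (continuous_const.add continuous_id)).sub continuous_const).sub h2
    have hD0 : D 0 = -1 := by
      simp only [hD, add_zero, g_zero, hF.at_new hsep]
      ring
    -- the first exit or the wall
    have key : ∃ t, 0 < t ∧ t ≤ e ∧ (∀ v, 0 ≤ v → v ≤ t → D v ≤ 0) ∧
        (D t = 0 ∨ P.2 + t = H) := by
      by_cases hne : ∃ v, 0 ≤ v ∧ v ≤ e ∧ 0 ≤ D v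
      · have hcomp : IsCompact (Set.Icc 0 e ∩ {v | 0 ≤ D v}) :=
          isCompact_Icc.inter_right (isClosed_le continuous_const hDc)
        obtain ⟨v0, hv0⟩ := hcomp.exists_isLeast (by
          obtain ⟨v, h1, h2, h3⟩ := hne
          exact ⟨v, ⟨h1, h2⟩, h3⟩)
        obtain ⟨⟨⟨h1, h2⟩, h3⟩, h4⟩ := hv0
        have h3' : 0 ≤ D v0 := h3
        have hpos : 0 < v0 := by
          rcases h1.eq_or_lt with h | h
          · rw [← h, hD0] at h3'
            exact absurd h3' (not_le.mpr (by linear_combination))
          · exact h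
        have hlt : ∀ v, 0 ≤ v → v < v0 → D v ≤ 0 := by
          intro v hv hv'
          by_contra hcon
          exact absurd (h4 ⟨⟨hv, by linear_combination h2 + hv'⟩, (not_le.1 hcon).le⟩) (not_le.2 hv')
        have hle : D v0 ≤ 0 := le_right (f := D) (k := fun _ => 0) hDc continuous_const hpos
          fun t ht1 ht2 => hlt t ht1.le ht2
        refine ⟨v0, hpos, h2, ?_, Or.inl (le_antisymm hle h3')⟩
        intro v hv hv'
        rcases hv'.eq_or_lt with h | h
        · rw [h]
          exact hle
        · exact hlt v hv h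
      · push Not at hne
        have hd1 : H - P.2 < 1 := by
          by_contra hcon
          have h1 : e = 1 := min_eq_right (not_lt.1 hcon)
          have h2 := hne 1 zero_le_one h1.ge
          simp only [hD, g_one] at h2
          have := hF.line (P.2 + 1)
          exact absurd h2 (not_lt.mpr (by linear_combination this))
        have h1 : e = H - P.2 := min_eq_left hd1.le
        refine ⟨e, by linear_combination hp + he0, le_rfl, fun v hv hv' => (hne v hv hv').le, Or.inr ?_⟩
        rw [h1]
        ring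
    obtain ⟨t, ht0, hte, hin, hout⟩ := key
    have ht1 : t ≤ 1 := hte.trans (min_le_right _ _)
    have htd : t ≤ H - P.2 := hte.trans (min_le_left _ _)
    have hin' : ∀ v, 0 ≤ v → v ≤ t → f (P.2 + v) ≤ P.1 + g v := by
      intro v h1 h2
      have := hin v h1 h2
      simp only [hD] at this
      linear_combination this
    -- three kinds of exits
    have key2 : 1 / 2 ≤ t ∧ t / 2 + h0 * g t ≤ H - P.2 ∧ (P.2 + t = H ∨ t = 1 ∨
        ∃ q ∈ S, arc q (P.2 + t) = P.1 + g t ∧ t / 2 + h0 * g t ≤ q.2 - P.2 ∧
          |P.2 + t - q.2| ≤ 1) := by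
      rcases hout with hout | hout
      · have hft : f (P.2 + t) = P.1 + g t := by
          simp only [hD] at hout
          linear_combination hout
        rcases ht1.eq_or_lt with h | h
        · refine ⟨by linear_combination -h, ?_, Or.inr (Or.inl h)⟩
          rw [h, g_one]
          linear_combination htd - h
        · have hg : 0 < g t := by
            unfold g
            exact Real.sqrt_pos.2 (by linear_combination h + (mul_nonneg (sub_nonneg.mpr (le_of_lt ht0)) (sub_nonneg.mpr ht1)))
          rcases hF.eq (P.2 + t) with h3 | ⟨q, hq, h3⟩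
          · exact absurd hg (not_lt.mpr (by linear_combination -hout + h3))
          · have h4 : arc q (P.2 + t) = P.1 + g t := by linear_combination hout - h3
            obtain ⟨k1, k2⟩ := exit_disc ht0 h (hF.le q hq) (hsep q hq) h4
            refine ⟨k1, by linear_combination (hs q hq) + k2, Or.inr (Or.inr ⟨q, hq, h4, k2, ?_⟩)⟩
            by_contra hcon
            rw [arc_far (not_le.1 hcon).le] at h4
            exact absurd hg (not_lt.mpr (by linear_combination (hF.le q hq) - h4))
      · have htd' : t = H - P.2 := by linear_combination hout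
        have hth : h0 ≤ t := by linear_combination hd - hout
        have hg : g t ≤ 1 / 2 := by
          unfold g
          rw [Real.sqrt_le_iff]
          constructor
          · norm_num
          · linear_combination -hh + (mul_nonneg (sub_nonneg.mpr hP) (sub_nonneg.mpr hd)) + (mul_nonneg (sub_nonneg.mpr hP) (sub_nonneg.mpr (ge_of_eq hout))) +
            (mul_nonneg (sub_nonneg.mpr (le_of_lt hp)) (sub_nonneg.mpr hd)) + (mul_nonneg (sub_nonneg.mpr (le_of_lt ht0)) (sub_nonneg.mpr (ge_of_eq hout)))
        have hg0 := g_nonneg t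
        refine ⟨by linear_combination -hh + hd - hout + (mul_pos (sub_pos.mpr hp) (sub_pos.mpr hh1)), ?_, Or.inl hout⟩
        rw [← htd']
        linear_combination (1 / 2) * hd - (1 / 2) * hout + (mul_nonneg (sub_nonneg.mpr (le_of_lt hp)) (sub_nonneg.mpr hg))
    obtain ⟨k1, k2, k3⟩ := key2
    obtain ⟨a1, a2, a3, a4, a5, a6⟩ := ext_spec k1 ht1
    refine ⟨t / 2 + h0 * g t, P.2 + t, Or.inr ⟨hd, a5, a6, by linear_combination k2, by rw [a4],
      by linear_combination htd, by
        rw [a4]
        exact k3⟩, ?_, ?_⟩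
    · intro z h1 h2
      exact (up_exit2 hF hsep k1 ht1 hin' k3 h1 (by linear_combination htd + h2)).1 h2
    · intro z h1 h2
      exact (up_exit2 hF hsep k1 ht1 hin' k3 (by linear_combination ht0 + h1) h2).2 h1


end Pool.Agent.Strip051
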